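import Pool.Agent.Helper57K1.FS.Def

/-!
# Marked blocks with one more point than the dimension of their lifted span

`few_marked : MarkedMove p n → FewMarked p n`.
-/

set_option autoImplicit false

namespace Pool.Agent.Helper98.FS

open MeasureTheory Set Filter Topology
open scoped ENNReal NNReal
open Pool.Agent.Y513.LPM (E Z mahlerLp supportLp)
open Pool.Agent.Helper57K1.LM
open Pool.Agent.Helper98.JN
open Pool.Agent.Helper57K1.FS

variable {n : ℕ} {p : ℝ} {J : Type} [Fintype J] [DecidableEq J]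

/-- the lifted linear combination -/
noncomputable def Psi (w : J → E n) : (J → ℝ) →ₗ[ℝ] (E n × ℝ) :=
  Fintype.linearCombination ℝ (fun i => (w i, (1 : ℝ)))

lemma Psi_apply (w : J → E n) (c : J → ℝ) : Psi w c = (∑ i, c i • w i, ∑ i, c i) := by
  unfold Psi
  rw [Fintype.linearCombination_apply]
  ext1
  · simp [Prod.fst_sum]
  · simp [Prod.snd_sum]

lemma range_Psi (w : J → E n) : LinearMap.range (Psi w) = lsp (range w) := by
  unfold Psi lsp
  rw [Fintype.range_linearCombination]
  congr 1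
  rw [← range_comp]
  rfl

/-- a generalised inverse -/
lemma exists_ginv (w : J → E n) : ∃ Φ : (E n × ℝ) →ₗ[ℝ] (J → ℝ), ∀ c, Psi w (Φ (Psi w c)) = Psi w c := by
  obtain ⟨g, hg⟩ := (Psi w).rangeRestrict.exists_rightInverse_of_surjective
    (LinearMap.range_eq_top.2 (LinearMap.surjective_rangeRestrict _))
  obtain ⟨Φ, hΦ⟩ := LinearMap.exists_extend g
  refine ⟨Φ, fun c => ?_⟩
  have h1 : Φ (Psi w c) = g ((Psi w).rangeRestrict c) := by
    have := congrArg (fun f => f ((Psi w).rangeRestrict c)) hΦ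
    simpa using this
  rw [h1]
  have h2 := congrArg (fun f => f ((Psi w).rangeRestrict c)) hg
  have h3 := congrArg Subtype.val h2
  simpa using h3

/-- coordinates of the block -/
lemma exists_coordS {w : J → E n} {κ : J → ℝ} {i₀ : J} (h0 : κ i₀ ≠ 0)
    (hD : ∀ c : J → ℝ, Psi w c = 0 → ∃ r : ℝ, ∀ i, c i = r * κ i) :
    ∃ b : E n → J → ℝ, Continuous b ∧
      (∀ c : J → ℝ, ∑ i, c i = 1 → ∀ i, κ i ≠ 0 →
        b (∑ i, c i • w i) i = c i - c i₀ / κ i₀ * κ i) ∧
      (∀ (j₁ j₂ : J), j₁ ≠ i₀ → j₂ ≠ i₀ → ∀ (x : E n) (s : ℝ) (i : J), i ≠ j₁ → i ≠ j₂ →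
        b (x + s • (w j₂ - w j₁)) i = b x i) := by
  obtain ⟨Φ, hΦ⟩ := exists_ginv w
  have hΦc : Continuous Φ := LinearMap.continuous_of_finiteDimensional Φ
  have hdiff : ∀ c, ∃ r : ℝ, ∀ i, Φ (Psi w c) i = c i + r * κ i := by
    intro c
    obtain ⟨r, hr⟩ := hD (Φ (Psi w c) - c) (by rw [map_sub, hΦ, sub_self])
    exact ⟨r, fun i => by have := hr i; rw [Pi.sub_apply] at this; linarith⟩
  refine ⟨fun x i => Φ (x, 1) i - Φ (x, 1) i₀ / κ i₀ * κ i, ?_, ?_, ?_⟩
  · refine continuous_pi fun i => ?_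
    have h1 : Continuous fun x : E n => Φ (x, (1 : ℝ)) := hΦc.comp (by fun_prop)
    exact ((continuous_apply i).comp h1).sub
      ((((continuous_apply i₀).comp h1).div_const _).mul continuous_const)
  · intro c hc i hi
    obtain ⟨r, hr⟩ := hdiff c
    rw [Psi_apply, hc] at hr
    dsimp only
    rw [hr i, hr i₀]
    field_simp
    ring
  · intro j₁ j₂ h1 h2 x s i hi1 hi2
    set e : J → ℝ := fun k => (if k = j₂ then 1 else 0) - (if k = j₁ then 1 else 0) with he
    have hPe : Psi w e = (w j₂ - w j₁, 0) := by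
      rw [Psi_apply]
      ext1
      · simp [he, sub_smul, Finset.sum_sub_distrib]
      · simp [he, Finset.sum_sub_distrib]
    obtain ⟨r, hr⟩ := hdiff e
    have h3 : ((x + s • (w j₂ - w j₁), (1 : ℝ)) : E n × ℝ) = (x, 1) + s • Psi w e := by
      rw [hPe]
      ext1
      · simp
      · simp
    have h4 : Φ (x + s • (w j₂ - w j₁), (1 : ℝ)) = Φ (x, 1) + s • Φ (Psi w e) := by
      rw [h3, map_add, map_smul]
    have ei : e i = 0 := by simp [he, hi1, hi2]
    have ei0 : e i₀ = 0 := by simp [he, h1.symm, h2.symm]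
    dsimp only
    rw [h4]
    simp only [Pi.add_apply, Pi.smul_apply, smul_eq_mul]
    rw [hr i, hr i₀, ei, ei0]
    field_simp
    ring

section
variable {w : J → E n} {κ : J → ℝ} {i₀ j₁ j₂ : J} {b : E n → J → ℝ}

lemma wtS_inv (h0 : 0 < κ i₀) (hj1 : κ j₁ < 0) (hj2 : κ j₂ < 0)
    (hinvb : ∀ (j₁ j₂ : J), j₁ ≠ i₀ → j₂ ≠ i₀ → ∀ (x : E n) (s : ℝ) (i : J), i ≠ j₁ → i ≠ j₂ →
        b (x + s • (w j₂ - w j₁)) i = b x i) (x : E n) (s : ℝ) :
    wtG κ h0 b (x + s • (w j₂ - w j₁)) = wtG κ h0 b x := by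
  unfold wtG
  congr 1
  refine Finset.sup'_congr _ rfl fun i hi => ?_
  have hi' := (mem_posG κ i).1 hi
  rw [hinvb j₁ j₂ (by rintro rfl; linarith) (by rintro rfl; linarith) x s i
    (by rintro rfl; linarith) (by rintro rfl; linarith)]

lemma shear_imageS
    (hκ : ∑ i, κ i = 0) (hκw : ∑ i, κ i • w i = 0)
    (h0 : 0 < κ i₀) (hj1 : κ j₁ < 0) (hj2 : κ j₂ < 0) (hne : j₁ ≠ j₂)
    (hb : ∀ c : J → ℝ, ∑ i, c i = 1 → ∀ i, κ i ≠ 0 →
        b (∑ i, c i • w i) i = c i - c i₀ / κ i₀ * κ i)
    (hinv : ∀ (x : E n) (s : ℝ), wtG κ h0 b (x + s • (w j₂ - w j₁)) = wtG κ h0 b x) {t : ℝ}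
    {κ' : J → ℝ}
    (hκ'1 : κ' j₁ = κ j₁ + κ i₀ * t) (hκ'2 : κ' j₂ = κ j₂ - κ i₀ * t)
    (hκ'3 : ∀ i, i ≠ j₁ → i ≠ j₂ → κ' i = κ i)
    (ht1 : κ j₁ + κ i₀ * t ≤ 0) (ht2 : κ j₂ - κ i₀ * t ≤ 0) :
    ∑ i, κ' i = 0 ∧
      ∑ i, κ' i • (Function.update w i₀ (w i₀ + t • (w j₂ - w j₁)) : J → E n) i = 0 ∧
    shear (wtG κ h0 b) (w j₂ - w j₁) t '' convexHull ℝ (range w) =
      convexHull ℝ (range (Function.update w i₀ (w i₀ + t • (w j₂ - w j₁)))) := by
  have hij1 : i₀ ≠ j₁ := by rintro rfl; linarith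
  have hij2 : i₀ ≠ j₂ := by rintro rfl; linarith
  set v : E n := w j₂ - w j₁ with hv
  set w' : J → E n := Function.update w i₀ (w i₀ + t • v) with hw'
  have hw'0 : w' i₀ = w i₀ + t • v := by rw [hw', Function.update_self]
  have hw'1 : ∀ j, j ≠ i₀ → w' j = w j := fun j hj => by rw [hw', Function.update_of_ne hj]
  have hκ'' : κ' = fun i => κ i + (κ i₀ * t) * ((if i = j₁ then 1 else 0) -
      (if i = j₂ then 1 else 0)) := by
    funext i
    rcases eq_or_ne i j₁ with rfl | h
    · rw [hκ'1]; simp [hne]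
    · rcases eq_or_ne i j₂ with rfl | h'
      · rw [hκ'2]; simp [h]; ring
      · rw [hκ'3 i h h']; simp [h, h']
  have hsum : ∑ i, κ' i = 0 := by
    rw [hκ'']
    simp only [Finset.sum_add_distrib, ← Finset.mul_sum, Finset.sum_sub_distrib]
    rw [hκ]; simp
  have hcomb : ∀ c : J → ℝ, ∑ i, c i • w' i = ∑ i, c i • w i + (c i₀ * t) • v :=
    fun c => comb_update hw'
  have hsumw : ∑ i, κ' i • w' i = 0 := by
    rw [hcomb, hκ'3 i₀ hij1 hij2, hκ'']
    simp only [add_smul, Finset.sum_add_distrib, mul_smul, sub_smul, ← Finset.smul_sum,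
      Finset.sum_sub_distrib]
    rw [hκw]
    simp only [ite_smul, one_smul, zero_smul, Finset.sum_ite_eq', Finset.mem_univ, if_true, hv]
    module
  refine ⟨hsum, hsumw, ?_⟩
  apply Subset.antisymm
  · rintro _ ⟨y, hy, rfl⟩
    obtain ⟨c, hc0, hc1, hc, hcβ⟩ := exists_repG (w' := w) (κ' := κ) h0 hb (fun _ _ => rfl)
      (fun _ _ => rfl) (fun _ h => h) hκ hκw hy
    rw [mem_hull]
    refine ⟨c, hc0, hc1, ?_⟩
    rw [hcomb, hc, hcβ]
    unfold shear wtG
    rw [mul_comm t]
  · intro x hx
    obtain ⟨c, hc0, hc1, hc, hcβ⟩ := exists_repG (w' := w') (κ' := κ') h0 hb hw'1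
      (fun i hi => hκ'3 i (by rintro rfl; linarith) (by rintro rfl; linarith))
      (fun i hi => by
        rcases eq_or_ne i j₁ with rfl | h
        · rw [hκ'1]; exact ht1
        · rcases eq_or_ne i j₂ with rfl | h'
          · rw [hκ'2]; exact ht2
          · rw [hκ'3 i h h']; exact hi) hsum hsumw hx
    have hy : ∑ i, c i • w i ∈ convexHull ℝ (range w) := (mem_hull w _).2 ⟨c, hc0, hc1, rfl⟩
    refine ⟨_, hy, ?_⟩
    have hxy : ∑ i, c i • w i = x + (-(c i₀ * t)) • v := by
      rw [← hc, hcomb]; module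
    unfold shear
    rw [hxy, hinv]
    change x + (-(c i₀ * t)) • v + (t * (κ i₀ * (posG κ).sup' _ (fun i => -b x i / κ i))) • v = x
    rw [← hcβ]
    module

end

/-- the lifted span of the convex hull -/
lemma lsp_hull (X : Set (E n)) : lsp (convexHull ℝ X) = lsp X := by
  apply le_antisymm
  · apply Submodule.span_le.2
    rintro _ ⟨x, hx, rfl⟩
    have h : convexHull ℝ X ⊆ {x | (x, (1 : ℝ)) ∈ lsp X} := by
      refine convexHull_min (fun x hx => Submodule.subset_span ⟨x, hx, rfl⟩) ?_
      intro y hy z hz a b _ _ hab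
      have h2 := (lsp X).add_mem ((lsp X).smul_mem a hy) ((lsp X).smul_mem b hz)
      have h3 : a • (y, (1 : ℝ)) + b • (z, (1 : ℝ)) = (a • y + b • z, (1 : ℝ)) := by
        ext1
        · rfl
        · simp [hab]
      rw [h3] at h2
      exact h2
    exact h hx
  · exact Submodule.span_mono (image_mono (subset_convexHull ℝ X))

/-- replacing a set by its convex hull -/
lemma hull_hull_union (X Y : Set (E n)) :
    convexHull ℝ (convexHull ℝ X ∪ Y) = convexHull ℝ (X ∪ Y) := by
  apply hull_replace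
  · exact (union_subset_union_left _ (subset_convexHull ℝ X)).trans (subset_convexHull ℝ _)
  · apply union_subset
    · exact convexHull_mono subset_union_left
    · exact subset_union_right.trans (subset_convexHull ℝ _)

lemma ok_hull {X Y : Set (E n)} : Ok p (convexHull ℝ X ∪ Y) ↔ Ok p (X ∪ Y) := by
  unfold Ok
  rw [hull_hull_union]

/-- the dependences of a block with a mark are proportional -/
lemma ker_one {r : ℕ} (hJ : Fintype.card J = r + 1) {w : J → E n} {o : E n}
    (ho : o ∈ convexHull ℝ (range w)) {R : Set (E n)} (hoR : (o, (1 : ℝ)) ∈ lsp R)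
    (hR : Module.finrank ℝ (lsp R) + r ≤ n + 2)
    (hint : (interior (convexHull ℝ (range w ∪ R))).Nonempty)
    {κ : J → ℝ} (hκ0 : κ ≠ 0) (hκ : Psi w κ = 0) :
    ∀ c : J → ℝ, Psi w c = 0 → ∃ s : ℝ, ∀ i, c i = s * κ i := by
  have htop : lsp (range w) ⊔ lsp R = ⊤ := by
    rw [← Submodule.span_union, ← image_union]
    exact span_top hint
  have hdim := Submodule.finrank_sup_add_finrank_inf_eq (lsp (range w)) (lsp R)
  have hfull : Module.finrank ℝ (lsp (range w) ⊔ lsp R : Submodule ℝ (E n × ℝ)) = n + 1 := by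
    rw [htop, finrank_top]
    simp
  have hoS : (o, (1 : ℝ)) ∈ lsp (range w) := by
    rw [← lsp_hull]
    exact Submodule.subset_span ⟨o, ho, rfl⟩
  have hinf : 1 ≤ Module.finrank ℝ (lsp (range w) ⊓ lsp R : Submodule ℝ (E n × ℝ)) := by
    rw [Nat.one_le_iff_ne_zero]
    intro h
    rw [Submodule.finrank_eq_zero] at h
    have h1 : (o, (1 : ℝ)) ∈ (lsp (range w) ⊓ lsp R : Submodule ℝ (E n × ℝ)) :=
      Submodule.mem_inf.2 ⟨hoS, hoR⟩
    rw [h, Submodule.mem_bot] at h1
    have := congrArg Prod.snd h1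
    simp at this
  have hrn := (Psi w).finrank_range_add_finrank_ker
  rw [range_Psi] at hrn
  have hdom : Module.finrank ℝ (J → ℝ) = r + 1 := by
    rw [Module.finrank_fintype_fun_eq_card, hJ]
  rw [hdom] at hrn
  have hkne : LinearMap.ker (Psi w) ≠ ⊥ := by
    intro h
    apply hκ0
    have h1 : κ ∈ LinearMap.ker (Psi w) := hκ
    rwa [h, Submodule.mem_bot] at h1
  have hkpos : 0 < Module.finrank ℝ (LinearMap.ker (Psi w)) := by
    rw [Nat.pos_iff_ne_zero]
    intro h
    exact hkne (Submodule.finrank_eq_zero.1 h)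
  have hker : Module.finrank ℝ (LinearMap.ker (Psi w)) = 1 := by omega
  intro c hc
  obtain ⟨s, hs⟩ := (finrank_eq_one_iff_of_nonzero' (⟨κ, hκ⟩ : LinearMap.ker (Psi w)) (by
    intro h
    exact hκ0 (congrArg Subtype.val h))).1 hker ⟨c, hc⟩
  refine ⟨s, fun i => ?_⟩
  have h1 := congrArg Subtype.val hs
  have h2 := congrFun h1 i
  simpa using h2.symm

/-- **moving the vertices of a marked block** -/
theorem few_marked_aux (hM : MarkedMove p n) {r : ℕ} (hJ : Fintype.card J = r + 1)
    {o : E n} {R : Finset (E n)} (hoR : (o, (1 : ℝ)) ∈ lsp (R : Set (E n)))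
    (hR : Module.finrank ℝ (lsp (R : Set (E n))) + r ≤ n + 2)
    (base : ∀ T : Finset (E n), T.card ≤ r → o ∈ convexHull ℝ (T : Set (E n)) →
      Ok p ((T : Set (E n)) ∪ R)) :
    ∀ (m : ℕ) (w : J → E n) (κ : J → ℝ), κ ≠ 0 → ∑ i, κ i = 0 → ∑ i, κ i • w i = 0 →
    (Finset.univ.filter fun i => κ i < 0).card ≤ m → o ∈ convexHull ℝ (range w) →
    Ok p (range w ∪ (R : Set (E n))) := by
  -- a redundant point
  have red : ∀ (w : J → E n) (i : J), w i ∈ convexHull ℝ (w '' {i}ᶜ) →
      o ∈ convexHull ℝ (range w) → Ok p (range w ∪ (R : Set (E n))) := by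
    intro w i hred ho
    set T : Finset (E n) := (Finset.univ.erase i).image w with hT
    have hTcard : T.card ≤ r := by
      have h1 : T.card ≤ (Finset.univ.erase i : Finset J).card := Finset.card_image_le
      rw [Finset.card_erase_of_mem (Finset.mem_univ _), Finset.card_univ, hJ] at h1
      omega
    have hTc : (T : Set (E n)) = w '' {i}ᶜ := by
      rw [hT, Finset.coe_image]
      congr 1
      ext k
      simp
    have hhull : convexHull ℝ (range w) = convexHull ℝ (T : Set (E n)) := by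
      rw [hTc]
      apply hull_replace
      · exact (image_subset_range w _).trans (subset_convexHull ℝ _)
      · rintro _ ⟨j, rfl⟩
        by_cases hji : j = i
        · rw [hji]
          exact hred
        · exact subset_convexHull ℝ _ ⟨j, hji, rfl⟩
    rw [hhull] at ho
    rw [← ok_hull, hhull, ok_hull]
    exact base T hTcard ho
  intro m
  induction m with
  | zero =>
    intro w κ h0 hκ hκw hm ho
    exfalso
    have h1 : ∀ i, 0 ≤ κ i := by
      intro i
      by_contra h
      push Not at h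
      have : i ∈ Finset.univ.filter fun i => κ i < 0 := by simp [h]
      have := Finset.card_pos.2 ⟨i, this⟩
      omega
    apply h0
    funext i
    exact (Finset.sum_eq_zero_iff_of_nonneg (fun i _ => h1 i)).1 hκ i (Finset.mem_univ i)
  | succ m ih =>
    intro w κ h0 hκ hκw hm ho
    -- a negative index and a positive index
    obtain ⟨j₁, hj1⟩ : ∃ j, κ j < 0 := by
      by_contra h
      push Not at h
      apply h0
      funext i
      exact (Finset.sum_eq_zero_iff_of_nonneg (fun i _ => h i)).1 hκ i (Finset.mem_univ i)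
    obtain ⟨i₁, hi1⟩ : ∃ i, 0 < κ i := by
      by_contra h
      push Not at h
      have h2 := (Finset.sum_eq_zero_iff_of_nonpos (fun i _ => h i)).1 hκ j₁ (Finset.mem_univ j₁)
      linarith
    -- the moving vertex does not carry the mark
    obtain ⟨i₀, hi0, d, hd0, hd1, hdo, hdi⟩ : ∃ i₀, 0 < κ i₀ ∧ ∃ d : J → ℝ, (∀ i, 0 ≤ d i) ∧
        ∑ i, d i = 1 ∧ ∑ i, d i • w i = o ∧ d i₀ = 0 := by
      obtain ⟨c, hc0, hc1, hc⟩ := (mem_hull w o).1 ho
      have hne : (posG κ).Nonempty := ⟨i₁, (mem_posG κ i₁).2 hi1⟩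
      obtain ⟨k, hk, hmin⟩ := Finset.exists_min_image (posG κ) (fun i => c i / κ i) hne
      have hk0 : 0 < κ k := (mem_posG κ k).1 hk
      refine ⟨k, hk0, fun i => c i - c k / κ k * κ i, ?_, ?_, ?_, ?_⟩
      · intro i
        have hs0 : 0 ≤ c k / κ k := div_nonneg (hc0 k) hk0.le
        rcases lt_or_ge 0 (κ i) with h | h
        · have h1 := hmin i ((mem_posG κ i).2 h)
          have h2 : c k / κ k * κ i ≤ c i := by
            rw [← le_div_iff₀ h]; exact h1
          simpa using h2
        · have := hc0 i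
          simp only
          nlinarith
      · simp only [Finset.sum_sub_distrib, ← Finset.mul_sum]
        rw [hc1, hκ, mul_zero, sub_zero]
      · simp only [sub_smul, Finset.sum_sub_distrib, mul_smul, ← Finset.smul_sum]
        rw [hc, hκw, smul_zero, sub_zero]
      · simp only
        field_simp
        ring
    by_cases hu : ∃ j₂, j₂ ≠ j₁ ∧ κ j₂ < 0
    · obtain ⟨j₂, hne, hj2⟩ := hu
      by_cases hv : w j₂ - w j₁ = 0
      · -- a repeated point
        refine red w j₂ ?_ ho
        rw [sub_eq_zero.1 hv]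
        exact subset_convexHull ℝ _ ⟨j₁, by simpa using hne.symm, rfl⟩
      intro hint z
      have hPκ : Psi w κ = 0 := by
        rw [Psi_apply, hκw, hκ]
        rfl
      obtain ⟨b, hbc, hb, hbinv⟩ := exists_coordS (w := w) (κ := κ) (i₀ := i₀) hi0.ne'
        (ker_one hJ ho hoR hR hint h0 hPκ)
      have hinv := wtS_inv (w := w) hi0 hj1 hj2 hbinv
      have hij1 : i₀ ≠ j₁ := by rintro rfl; linarith
      have hij2 : i₀ ≠ j₂ := by rintro rfl; linarith
      have hfrS : Module.finrank ℝ (lsp (convexHull ℝ (range w))) ≤ r := by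
        rw [lsp_hull, ← range_Psi]
        have hrn := (Psi w).finrank_range_add_finrank_ker
        have hdom : Module.finrank ℝ (J → ℝ) = r + 1 := by
          rw [Module.finrank_fintype_fun_eq_card, hJ]
        rw [hdom] at hrn
        have hkpos : 0 < Module.finrank ℝ (LinearMap.ker (Psi w)) := by
          rw [Nat.pos_iff_ne_zero]
          intro h
          have h1 : κ ∈ LinearMap.ker (Psi w) := hPκ
          rw [Submodule.finrank_eq_zero.1 h, Submodule.mem_bot] at h1
          exact h0 h1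
        omega
      -- the two end points
      have key : ∀ (t : ℝ) (ht1 : κ j₁ + κ i₀ * t ≤ 0) (ht2 : κ j₂ - κ i₀ * t ≤ 0)
          (_ : κ j₁ + κ i₀ * t = 0 ∨ κ j₂ - κ i₀ * t = 0),
          Convex ℝ (shear (wtG κ hi0 b) (w j₂ - w j₁) t '' convexHull ℝ (range w)) ∧
          o ∈ shear (wtG κ hi0 b) (w j₂ - w j₁) t '' convexHull ℝ (range w) ∧
          Ok p (shear (wtG κ hi0 b) (w j₂ - w j₁) t '' convexHull ℝ (range w) ∪
            (R : Set (E n))) := by
        intro t ht1 ht2 hz
        set κ' : J → ℝ := Function.update (Function.update κ j₂ (κ j₂ - κ i₀ * t)) j₁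
          (κ j₁ + κ i₀ * t) with hκ'
        have e1 : κ' j₁ = κ j₁ + κ i₀ * t := by rw [hκ', Function.update_self]
        have e2 : κ' j₂ = κ j₂ - κ i₀ * t := by
          rw [hκ', Function.update_of_ne hne, Function.update_self]
        have e3 : ∀ i, i ≠ j₁ → i ≠ j₂ → κ' i = κ i := fun i h h' => by
          rw [hκ', Function.update_of_ne h, Function.update_of_ne h']
        obtain ⟨s1, s2, himg⟩ := shear_imageS hκ hκw hi0 hj1 hj2 hne.symm hb hinv e1 e2 e3 ht1 ht2
        have ho' : o ∈ convexHull ℝ (range (Function.update w i₀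
            (w i₀ + t • (w j₂ - w j₁)))) := by
          rw [mem_hull]
          refine ⟨d, hd0, hd1, ?_⟩
          rw [comb_update rfl, hdo, hdi, zero_mul, zero_smul, add_zero]
        rw [himg]
        refine ⟨convex_convexHull ℝ _, ho', ?_⟩
        rw [ok_hull]
        refine ih _ κ' ?_ s1 s2 ?_ ho'
        · intro h
          have := congrFun h i₀
          rw [e3 i₀ hij1 hij2] at this
          simp at this
          linarith
        · -- fewer negative indices
          have hsub : (Finset.univ.filter fun i => κ' i < 0) ⊂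
              (Finset.univ.filter fun i => κ i < 0) := by
            rw [Finset.ssubset_iff_of_subset]
            · rcases hz with hz | hz
              · exact ⟨j₁, by simp [hj1], by simp [e1, hz]⟩
              · exact ⟨j₂, by simp [hj2], by simp [e2, hz]⟩
            · intro i hi'
              simp only [Finset.mem_filter, Finset.mem_univ, true_and] at hi' ⊢
              rcases eq_or_ne i j₁ with rfl | h
              · exact hj1
              · rcases eq_or_ne i j₂ with rfl | h'
                · exact hj2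
                · rwa [e3 i h h'] at hi'
          have := Finset.card_lt_card hsub
          omega
      have hk0 := key (κ j₂ / κ i₀) (by
          rw [mul_div_cancel₀ _ hi0.ne']; linarith) (by
          rw [mul_div_cancel₀ _ hi0.ne']; linarith) (Or.inr (by
          rw [mul_div_cancel₀ _ hi0.ne']; linarith))
      have hk1 := key (-κ j₁ / κ i₀) (by
          rw [mul_div_cancel₀ _ hi0.ne']; linarith) (by
          rw [mul_div_cancel₀ _ hi0.ne']; linarith) (Or.inl (by
          rw [mul_div_cancel₀ _ hi0.ne']; linarith))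
      have main : Ok p (convexHull ℝ (range w) ∪ (R : Set (E n))) :=
        hM (hull_compact w) (convex_convexHull ℝ _) ho hfrS hoR hR
          (wtG_cont hi0 hbc) (subset_convexHull ℝ _ ⟨j₁, rfl⟩) (subset_convexHull ℝ _ ⟨j₂, rfl⟩) hv
          hinv (div_neg_of_neg_of_pos hj2 hi0) (div_pos (neg_pos.2 hj1) hi0)
          hk0.1 hk1.1 hk0.2.1 hk1.2.1 hk0.2.2 hk1.2.2
      exact ok_hull.1 main hint z
    · -- a single negative index: the point is redundant
      push Not at hu
      refine red w j₁ ?_ ho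
      have hsplit : ∑ i ∈ Finset.univ.erase j₁, κ i = -κ j₁ := by
        have := Finset.add_sum_erase Finset.univ κ (Finset.mem_univ j₁)
        rw [hκ] at this
        linarith
      have hsplitw : ∑ i ∈ Finset.univ.erase j₁, κ i • w i = -(κ j₁ • w j₁) := by
        have := Finset.add_sum_erase Finset.univ (fun i => κ i • w i) (Finset.mem_univ j₁)
        rw [hκw] at this
        exact (neg_eq_of_add_eq_zero_right this).symm
      have hw1 : w j₁ = ∑ i ∈ Finset.univ.erase j₁, (κ i / (-κ j₁)) • w i := by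
        have h2 : ∑ i ∈ Finset.univ.erase j₁, (κ i / (-κ j₁)) • w i =
            (-κ j₁)⁻¹ • ∑ i ∈ Finset.univ.erase j₁, κ i • w i := by
          rw [Finset.smul_sum]
          refine Finset.sum_congr rfl fun k _ => ?_
          rw [smul_smul, div_eq_inv_mul]
        rw [h2, hsplitw, ← neg_smul, smul_smul, inv_mul_cancel₀ (by linarith), one_smul]
      rw [hw1]
      refine (convex_convexHull ℝ _).sum_mem ?_ ?_ ?_
      · intro i hi'
        exact div_nonneg (hu i (Finset.ne_of_mem_erase hi')) (by linarith)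
      · rw [← Finset.sum_div, hsplit, div_self (by linarith)]
      · intro i hi'
        exact subset_convexHull ℝ _ ⟨i, by simpa using Finset.ne_of_mem_erase hi', rfl⟩

/-- **marked blocks with few points** -/
theorem few_marked (hM : MarkedMove p n) : FewMarked p n := by
  classical
  intro r S hS hfr o ho R hoR hR base
  by_cases hsmall : S.card ≤ r
  · exact base S hsmall ho
  have hcard : S.card = r + 1 := by omega
  obtain ⟨w, hw⟩ : ∃ w : Fin (r + 1) → E n, range w = (S : Set (E n)) := by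
    have e := S.equivFinOfCardEq hcard
    refine ⟨fun i => (e.symm i : E n), ?_⟩
    ext x
    constructor
    · rintro ⟨i, rfl⟩
      exact (e.symm i).2
    · intro hx
      exact ⟨e ⟨x, hx⟩, by simp⟩
  have hrn := (Psi w).finrank_range_add_finrank_ker
  rw [range_Psi, hw] at hrn
  have hdom : Module.finrank ℝ (Fin (r + 1) → ℝ) = r + 1 := by simp
  rw [hdom] at hrn
  have hkne : LinearMap.ker (Psi w) ≠ ⊥ := by
    intro h
    rw [h] at hrn
    simp at hrn
    omega
  obtain ⟨κ, hκ, hκ0⟩ := (Submodule.ne_bot_iff _).1 hkne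
  have hκΨ : Psi w κ = 0 := hκ
  rw [Psi_apply] at hκΨ
  have hκ1 : ∑ i, κ i • w i = 0 := congrArg Prod.fst hκΨ
  have hκ2 : ∑ i, κ i = 0 := congrArg Prod.snd hκΨ
  rw [← hw] at ho ⊢
  exact few_marked_aux hM (by simp) hoR hR base _ w κ hκ0 hκ2 hκ1 le_rfl ho

end Pool.Agent.Helper98.FS
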