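import Pool.Agent.Helper57K1.FS.Red
import Pool.Agent.Helper98.FS.A

/-!
# Polytopes with at most (dimension + 2) points are reducible

`red_few : RedFew n`.
-/

set_option autoImplicit false

namespace Pool.Agent.Helper98.FS

open MeasureTheory Set Filter Topology
open scoped ENNReal NNReal
open Pool.Agent.Y513.LPM (E Z mahlerLp supportLp)
open Pool.Agent.Helper57K1.LM
open Pool.Agent.Helper98.JN
open Pool.Agent.Helper57K1.FS

variable {n : ℕ} {J : Type} [Fintype J] [DecidableEq J]

/-- the dependences of a family with one more point than the rank are proportional -/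
lemma ker_prop {r : ℕ} (hJ : Fintype.card J = r + 1) {w : J → E n}
    (hr : r ≤ Module.finrank ℝ (lsp (range w))) {κ : J → ℝ} (hκ0 : κ ≠ 0) (hκ : Psi w κ = 0) :
    ∀ c : J → ℝ, Psi w c = 0 → ∃ s : ℝ, ∀ i, c i = s * κ i := by
  have hrn := (Psi w).finrank_range_add_finrank_ker
  rw [range_Psi] at hrn
  have hdom : Module.finrank ℝ (J → ℝ) = r + 1 := by
    rw [Module.finrank_fintype_fun_eq_card, hJ]
  rw [hdom] at hrn
  have hkpos : 0 < Module.finrank ℝ (LinearMap.ker (Psi w)) := by
    rw [Nat.pos_iff_ne_zero]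
    intro h
    have h1 : κ ∈ LinearMap.ker (Psi w) := hκ
    rw [Submodule.finrank_eq_zero.1 h, Submodule.mem_bot] at h1
    exact hκ0 h1
  have hker : Module.finrank ℝ (LinearMap.ker (Psi w)) = 1 := by omega
  intro c hc
  obtain ⟨s, hs⟩ := (finrank_eq_one_iff_of_nonzero' (⟨κ, hκ⟩ : LinearMap.ker (Psi w)) (by
    intro h
    exact hκ0 (congrArg Subtype.val h))).1 hker ⟨c, hc⟩
  refine ⟨s, fun i => ?_⟩
  have h1 := congrArg Subtype.val hs
  have h2 := congrFun h1 i
  simpa using h2.symm

omit [Fintype J] in
/-- moving a point parallel to two other points does not change the lifted span -/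
lemma lsp_update {w : J → E n} {i₀ j₁ j₂ : J} (h1 : i₀ ≠ j₁) (h2 : i₀ ≠ j₂) (t : ℝ) :
    lsp (range w) ≤ lsp (range (Function.update w i₀ (w i₀ + t • (w j₂ - w j₁)))) := by
  set w' : J → E n := Function.update w i₀ (w i₀ + t • (w j₂ - w j₁)) with hw'
  have hw'0 : w' i₀ = w i₀ + t • (w j₂ - w j₁) := by rw [hw', Function.update_self]
  have hw'1 : ∀ j, j ≠ i₀ → w' j = w j := fun j hj => by rw [hw', Function.update_of_ne hj]
  have hm : ∀ j, (w' j, (1 : ℝ)) ∈ lsp (range w') := fun j =>
    Submodule.subset_span ⟨w' j, ⟨j, rfl⟩, rfl⟩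
  apply Submodule.span_le.2
  rintro _ ⟨_, ⟨j, rfl⟩, rfl⟩
  by_cases hj : j = i₀
  · subst hj
    have h3 := (lsp (range w')).sub_mem (hm j) ((lsp (range w')).smul_mem t
      ((lsp (range w')).sub_mem (hm j₂) (hm j₁)))
    rw [hw'0, hw'1 j₁ h1.symm, hw'1 j₂ h2.symm] at h3
    have h4 : ((w j + t • (w j₂ - w j₁), (1 : ℝ)) : E n × ℝ) -
        t • ((w j₂, (1 : ℝ)) - (w j₁, (1 : ℝ))) = (w j, 1) := by
      ext1
      · simp
      · simp
    rw [h4] at h3
    exact h3
  · have := hm j
    rw [hw'1 j hj] at this
    exact this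

/-- **moving the points of a family with one more point than the rank** -/
theorem red_few_aux {r : ℕ} (hJ : Fintype.card J = r + 1) :
    ∀ (m : ℕ) (w : J → E n) (κ : J → ℝ), r ≤ Module.finrank ℝ (lsp (range w)) →
    κ ≠ 0 → ∑ i, κ i = 0 → ∑ i, κ i • w i = 0 →
    (Finset.univ.filter fun i => κ i < 0).card ≤ m → Red (Finset.univ.image w) := by
  have hcoe : ∀ w : J → E n, ((Finset.univ.image w : Finset (E n)) : Set (E n)) = range w := by
    intro w
    rw [Finset.coe_image, Finset.coe_univ, image_univ]
  -- a redundant point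
  have red : ∀ (w : J → E n) (i : J), r ≤ Module.finrank ℝ (lsp (range w)) →
      w i ∈ convexHull ℝ (w '' {i}ᶜ) → Red (Finset.univ.image w) := by
    intro w i hr hred
    set T : Finset (E n) := (Finset.univ.erase i).image w with hT
    have hTcard : T.card ≤ r := by
      have h1 : T.card ≤ (Finset.univ.erase i : Finset J).card := Finset.card_image_le
      rw [Finset.card_erase_of_mem (Finset.mem_univ _), Finset.card_univ, hJ] at h1
      omega
    have hTc : (T : Set (E n)) = w '' {i}ᶜ := by
      rw [hT, Finset.coe_image]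
      congr 1
      ext k
      simp
    have hhull : convexHull ℝ (range w) = convexHull ℝ (T : Set (E n)) := by
      rw [hTc]
      apply hull_replace
      · exact (image_subset_range w _).trans (subset_convexHull ℝ _)
      · rintro _ ⟨j, rfl⟩
        by_cases hji : j = i
        · rw [hji]
          exact hred
        · exact subset_convexHull ℝ _ ⟨j, hji, rfl⟩
    refine Red.hull (F := T) (by rw [hcoe, hhull]) (Red.base ?_)
    rw [← lsp_hull, ← hhull, lsp_hull]
    exact hTcard.trans hr
  intro m
  induction m with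
  | zero =>
    intro w κ hr h0 hκ hκw hm
    exfalso
    have h1 : ∀ i, 0 ≤ κ i := by
      intro i
      by_contra h
      push Not at h
      have : i ∈ Finset.univ.filter fun i => κ i < 0 := by simp [h]
      have := Finset.card_pos.2 ⟨i, this⟩
      omega
    apply h0
    funext i
    exact (Finset.sum_eq_zero_iff_of_nonneg (fun i _ => h1 i)).1 hκ i (Finset.mem_univ i)
  | succ m ih =>
    intro w κ hr h0 hκ hκw hm
    -- a negative index and a positive index
    obtain ⟨j₁, hj1⟩ : ∃ j, κ j < 0 := by
      by_contra h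
      push Not at h
      apply h0
      funext i
      exact (Finset.sum_eq_zero_iff_of_nonneg (fun i _ => h i)).1 hκ i (Finset.mem_univ i)
    obtain ⟨i₀, hi0⟩ : ∃ i, 0 < κ i := by
      by_contra h
      push Not at h
      have h2 := (Finset.sum_eq_zero_iff_of_nonpos (fun i _ => h i)).1 hκ j₁ (Finset.mem_univ j₁)
      linarith
    by_cases hu : ∃ j₂, j₂ ≠ j₁ ∧ κ j₂ < 0
    · obtain ⟨j₂, hne, hj2⟩ := hu
      by_cases hv : w j₂ - w j₁ = 0
      · -- a repeated point
        refine red w j₂ hr ?_
        rw [sub_eq_zero.1 hv]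
        exact subset_convexHull ℝ _ ⟨j₁, by simpa using hne.symm, rfl⟩
      have hPκ : Psi w κ = 0 := by
        rw [Psi_apply, hκw, hκ]
        rfl
      obtain ⟨b, hbc, hb, hbinv⟩ := exists_coordS (w := w) (κ := κ) (i₀ := i₀) hi0.ne'
        (ker_prop hJ hr h0 hPκ)
      have hinv := wtS_inv (w := w) hi0 hj1 hj2 hbinv
      have hij1 : i₀ ≠ j₁ := by rintro rfl; linarith
      have hij2 : i₀ ≠ j₂ := by rintro rfl; linarith
      -- the two end points
      have key : ∀ (t : ℝ) (ht1 : κ j₁ + κ i₀ * t ≤ 0) (ht2 : κ j₂ - κ i₀ * t ≤ 0)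
          (_ : κ j₁ + κ i₀ * t = 0 ∨ κ j₂ - κ i₀ * t = 0),
          shear (wtG κ hi0 b) (w j₂ - w j₁) t '' convexHull ℝ (range w) =
            convexHull ℝ (range (Function.update w i₀ (w i₀ + t • (w j₂ - w j₁)))) ∧
          Red (Finset.univ.image (Function.update w i₀ (w i₀ + t • (w j₂ - w j₁)))) := by
        intro t ht1 ht2 hz
        set κ' : J → ℝ := Function.update (Function.update κ j₂ (κ j₂ - κ i₀ * t)) j₁
          (κ j₁ + κ i₀ * t) with hκ'
        have e1 : κ' j₁ = κ j₁ + κ i₀ * t := by rw [hκ', Function.update_self]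
        have e2 : κ' j₂ = κ j₂ - κ i₀ * t := by
          rw [hκ', Function.update_of_ne hne, Function.update_self]
        have e3 : ∀ i, i ≠ j₁ → i ≠ j₂ → κ' i = κ i := fun i h h' => by
          rw [hκ', Function.update_of_ne h, Function.update_of_ne h']
        obtain ⟨s1, s2, himg⟩ := shear_imageS hκ hκw hi0 hj1 hj2 hne.symm hb hinv e1 e2 e3 ht1 ht2
        refine ⟨himg, ih _ κ' ?_ ?_ s1 s2 ?_⟩
        · exact hr.trans (Submodule.finrank_mono (lsp_update hij1 hij2 t))
        · intro h
          have := congrFun h i₀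
          rw [e3 i₀ hij1 hij2] at this
          simp at this
          linarith
        · -- fewer negative indices
          have hsub : (Finset.univ.filter fun i => κ' i < 0) ⊂
              (Finset.univ.filter fun i => κ i < 0) := by
            rw [Finset.ssubset_iff_of_subset]
            · rcases hz with hz | hz
              · exact ⟨j₁, by simp [hj1], by simp [e1, hz]⟩
              · exact ⟨j₂, by simp [hj2], by simp [e2, hz]⟩
            · intro i hi'
              simp only [Finset.mem_filter, Finset.mem_univ, true_and] at hi' ⊢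
              rcases eq_or_ne i j₁ with rfl | h
              · exact hj1
              · rcases eq_or_ne i j₂ with rfl | h'
                · exact hj2
                · rwa [e3 i h h'] at hi'
          have := Finset.card_lt_card hsub
          omega
      have hk0 := key (κ j₂ / κ i₀) (by
          rw [mul_div_cancel₀ _ hi0.ne']; linarith) (by
          rw [mul_div_cancel₀ _ hi0.ne']; linarith) (Or.inr (by
          rw [mul_div_cancel₀ _ hi0.ne']; linarith))
      have hk1 := key (-κ j₁ / κ i₀) (by
          rw [mul_div_cancel₀ _ hi0.ne']; linarith) (by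
          rw [mul_div_cancel₀ _ hi0.ne']; linarith) (Or.inl (by
          rw [mul_div_cancel₀ _ hi0.ne']; linarith))
      refine Red.move (wtG_cont hi0 hbc) (a := w j₁) (b := w j₂) ?_ ?_ hv hinv
        (div_neg_of_neg_of_pos hj2 hi0) (div_pos (neg_pos.2 hj1) hi0) ?_ ?_ hk0.2 hk1.2
      · rw [hcoe]
        exact subset_convexHull ℝ _ ⟨j₁, rfl⟩
      · rw [hcoe]
        exact subset_convexHull ℝ _ ⟨j₂, rfl⟩
      · rw [hcoe, hcoe]
        exact hk0.1
      · rw [hcoe, hcoe]
        exact hk1.1
    · -- a single negative index: the point is redundant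
      push Not at hu
      refine red w j₁ hr ?_
      have hsplit : ∑ i ∈ Finset.univ.erase j₁, κ i = -κ j₁ := by
        have := Finset.add_sum_erase Finset.univ κ (Finset.mem_univ j₁)
        rw [hκ] at this
        linarith
      have hsplitw : ∑ i ∈ Finset.univ.erase j₁, κ i • w i = -(κ j₁ • w j₁) := by
        have := Finset.add_sum_erase Finset.univ (fun i => κ i • w i) (Finset.mem_univ j₁)
        rw [hκw] at this
        exact (neg_eq_of_add_eq_zero_right this).symm
      have hw1 : w j₁ = ∑ i ∈ Finset.univ.erase j₁, (κ i / (-κ j₁)) • w i := by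
        have h2 : ∑ i ∈ Finset.univ.erase j₁, (κ i / (-κ j₁)) • w i =
            (-κ j₁)⁻¹ • ∑ i ∈ Finset.univ.erase j₁, κ i • w i := by
          rw [Finset.smul_sum]
          refine Finset.sum_congr rfl fun k _ => ?_
          rw [smul_smul, div_eq_inv_mul]
        rw [h2, hsplitw, ← neg_smul, smul_smul, inv_mul_cancel₀ (by linarith), one_smul]
      rw [hw1]
      refine (convex_convexHull ℝ _).sum_mem ?_ ?_ ?_
      · intro i hi'
        exact div_nonneg (hu i (Finset.ne_of_mem_erase hi')) (by linarith)
      · rw [← Finset.sum_div, hsplit, div_self (by linarith)]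
      · intro i hi'
        exact subset_convexHull ℝ _ ⟨i, by simpa using Finset.ne_of_mem_erase hi', rfl⟩

/-- **polytopes with at most (dimension + 2) points are reducible** -/
theorem red_few : RedFew n := by
  classical
  intro F hF
  by_cases hsmall : F.card ≤ Module.finrank ℝ (lsp (F : Set (E n)))
  · exact Red.base hsmall
  obtain ⟨r, hr⟩ : ∃ r, r = Module.finrank ℝ (lsp (F : Set (E n))) := ⟨_, rfl⟩
  have hcard : F.card = r + 1 := by omega
  obtain ⟨w, hw⟩ : ∃ w : Fin (r + 1) → E n, range w = (F : Set (E n)) := by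
    have e := F.equivFinOfCardEq hcard
    refine ⟨fun i => (e.symm i : E n), ?_⟩
    ext x
    constructor
    · rintro ⟨i, rfl⟩
      exact (e.symm i).2
    · intro hx
      exact ⟨e ⟨x, hx⟩, by simp⟩
  have hrn := (Psi w).finrank_range_add_finrank_ker
  rw [range_Psi, hw] at hrn
  have hdom : Module.finrank ℝ (Fin (r + 1) → ℝ) = r + 1 := by simp
  rw [hdom] at hrn
  have hkne : LinearMap.ker (Psi w) ≠ ⊥ := by
    intro h
    rw [h] at hrn
    simp at hrn
    omega
  obtain ⟨κ, hκ, hκ0⟩ := (Submodule.ne_bot_iff _).1 hkne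
  have hκΨ : Psi w κ = 0 := hκ
  rw [Psi_apply] at hκΨ
  have hκ1 : ∑ i, κ i • w i = 0 := congrArg Prod.fst hκΨ
  have hκ2 : ∑ i, κ i = 0 := congrArg Prod.snd hκΨ
  have hFw : F = Finset.univ.image w := by
    apply Finset.coe_injective
    rw [Finset.coe_image, Finset.coe_univ, image_univ, hw]
  rw [hFw]
  exact red_few_aux (r := r) (by simp) _ w κ (by rw [hw, ← hr]) hκ0 hκ2 hκ1 le_rfl

end Pool.Agent.Helper98.FS
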